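import Pool.Agent.Q264.HankMain

/-!
# A digit-sum Hankel determinant polynomial with the multiple root `-1`
-/

set_option autoImplicit false

namespace Pool.Agent.Results.MP_adc81a_nt.DoubleRoot

open Polynomial

/-- `S n = ∑ ε_j t ^ j`, where `ε_j` are the binary digits of `n`; the variable `t` is the polynomial variable `X`. -/
noncomputable def S (n : ℕ) : ℤ[X] := Nat.ofDigits (X : ℤ[X]) (Nat.digits 2 n)

/-- The Hankel matrix `[S (i + j)]`, `0 ≤ i, j < n`. -/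
noncomputable def H (n : ℕ) : Matrix (Fin n) (Fin n) ℤ[X] := fun i j => S (i + j)

/-- The Hankel determinant polynomial. -/
noncomputable def hdet (n : ℕ) : ℤ[X] := (H n).det

theorem hdet_eq : hdet 55 = (Q264.Hank.H 55).det := rfl

theorem ne_zero : (hdet 55).map (Int.castRingHom ℂ) ≠ 0 := by
  rw [Ne, Polynomial.map_eq_zero_iff (RingHom.injective_int _)]
  intro h
  apply Q264.Hank.det_ne
  rw [← hdet_eq, h, map_zero]

theorem sq_dvd : (X - C (-1 : ℂ)) ^ 2 ∣ (hdet 55).map (Int.castRingHom ℂ) := by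
  have h := Polynomial.map_dvd (Int.castRingHom ℂ) Q264.Hank.det_dvd
  rw [← hdet_eq, Polynomial.map_pow, Polynomial.map_add, Polynomial.map_X, Polynomial.map_one] at h
  rw [map_neg, map_one, sub_neg_eq_add]
  exact h

/-- The number `-1`, which is neither `0` nor twice a root of unity, is a multiple root of the (nonzero) Hankel
determinant polynomial of order `55`. Hence the answer to the question is positive. -/
theorem result :
    ((hdet 55).map (Int.castRingHom ℂ) ≠ 0 ∧ (X - C (-1 : ℂ)) ^ 2 ∣ (hdet 55).map (Int.castRingHom ℂ)) ∧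
    ∃ n : ℕ, 2 ≤ n ∧ ∃ t₀ : ℂ, t₀ ≠ 0 ∧ (∀ ζ : ℂ, (∃ m : ℕ, 1 ≤ m ∧ ζ ^ m = 1) → t₀ ≠ 2 * ζ) ∧
      (hdet n).map (Int.castRingHom ℂ) ≠ 0 ∧ (X - C t₀) ^ 2 ∣ (hdet n).map (Int.castRingHom ℂ) := by
  refine ⟨⟨ne_zero, sq_dvd⟩, 55, by norm_num, -1, by norm_num, ?_, ne_zero, sq_dvd⟩
  rintro ζ ⟨m, hm, hζ⟩ h
  have h1 : ‖ζ‖ = 1 := Complex.norm_eq_one_of_pow_eq_one hζ (by omega)
  have h2 : ‖(-1 : ℂ)‖ = 2 * ‖ζ‖ := by
    rw [h, norm_mul]
    simp
  rw [h1, norm_neg, norm_one] at h2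
  norm_num at h2

end Pool.Agent.Results.MP_adc81a_nt.DoubleRoot
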